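import Pool.Agent.Q161.WMeans.Core

/-!
# Every bounded sequence admits fully monotonic admissible weights
-/

open Filter Topology Finset

namespace Pool.Agent.Results.MP_968b24_an.FullyMonotoneWeights

open Pool.Agent.Q161.WMeans

/-- A bounded sequence has an Abel limit point, along a sequence with the halving property. -/
lemma exists_lac (s : ℕ → ℝ) (M : ℝ) (hs : ∀ i, |s i| ≤ M) :
    ∃ (ε : ℕ → ℝ) (c : ℝ), Lac ε ∧ Tendsto (fun j => abelMean s (ε j)) atTop (𝓝 c) := by
  set e : ℕ → ℝ := fun k => 1 / ((k : ℝ) + 2) with he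
  have hepos : ∀ k, 0 < e k := fun k => by rw [he]; positivity
  have helt : ∀ k, e k < 1 := fun k => by
    rw [he]; simp only
    rw [div_lt_one (by positivity)]
    have : (0 : ℝ) ≤ k := Nat.cast_nonneg k
    linarith
  have he0 : Tendsto e atTop (𝓝 0) := by
    rw [he]
    have h1 : Tendsto (fun k : ℕ => ((k : ℝ) + 2)) atTop atTop :=
      tendsto_atTop_add_const_right _ _ tendsto_natCast_atTop_atTop
    exact h1.inv_tendsto_atTop.congr (fun k => by simp [Pi.inv_apply])
  -- the Abel means are bounded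
  have hb : ∀ k, abelMean s (e k) ∈ Set.Icc (-M) M := by
    intro k
    have h1 : HasSum (fun i => (1 - e k) ^ i * M) ((e k)⁻¹ * M) := by
      have := (hasSum_geometric_of_lt_one (r := 1 - e k) (by linarith [helt k])
        (by linarith [hepos k])).mul_right M
      simpa using this
    have h2 : |∑' i, (1 - e k) ^ i * s i| ≤ (e k)⁻¹ * M := by
      rw [← Real.norm_eq_abs]
      refine tsum_of_norm_bounded h1 (fun i => ?_)
      have hp : 0 < (1 - e k) ^ i := pow_pos (by linarith [helt k]) i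
      rw [Real.norm_eq_abs, abs_mul, abs_of_pos hp]
      exact mul_le_mul_of_nonneg_left (hs i) hp.le
    have h3 : |abelMean s (e k)| ≤ M := by
      unfold abelMean
      rw [abs_mul, abs_of_pos (hepos k)]
      calc e k * |∑' i, (1 - e k) ^ i * s i| ≤ e k * ((e k)⁻¹ * M) :=
            mul_le_mul_of_nonneg_left h2 (hepos k).le
        _ = M := by rw [← mul_assoc, mul_inv_cancel₀ (hepos k).ne', one_mul]
    exact ⟨(abs_le.mp h3).1, (abs_le.mp h3).2⟩
  obtain ⟨c, -, φ, hφ, hc⟩ := isCompact_Icc.tendsto_subseq hb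
  -- pass to a further subsequence with the halving property
  have hf0 : Tendsto (fun k => e (φ k)) atTop (𝓝 0) := he0.comp hφ.tendsto_atTop
  have hnext : ∀ k : ℕ, ∃ k', k < k' ∧ e (φ k') ≤ e (φ k) / 2 := by
    intro k
    have h1 : ∀ᶠ k' in atTop, e (φ k') < e (φ k) / 2 :=
      hf0.eventually (gt_mem_nhds (by have := hepos (φ k); positivity))
    obtain ⟨k', hk', hk''⟩ := (h1.and (eventually_gt_atTop k)).exists
    exact ⟨k', hk'', hk'.le⟩
  choose g hg1 hg2 using hnext
  set ψ : ℕ → ℕ := fun j => g^[j] 0 with hψ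
  have hψs : StrictMono ψ := by
    apply strictMono_nat_of_lt_succ
    intro j
    rw [hψ]
    simp only [Function.iterate_succ_apply']
    exact hg1 _
  refine ⟨fun j => e (φ (ψ j)), c, ⟨fun j => hepos _, fun j => helt _, fun j => ?_⟩, ?_⟩
  · have : ψ (j + 1) = g (ψ j) := by rw [hψ]; simp only [Function.iterate_succ_apply']
    rw [this]
    exact hg2 _
  · exact hc.comp hψs.tendsto_atTop

/-- **Positive answer to Q1, (a) and (b)**: every bounded real sequence admits an admissible
sequence of weights that is fully monotonic, and (hence) one that is nonincreasing. -/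
theorem result : ∀ s : ℕ → ℝ, (∃ M, ∀ i, |s i| ≤ M) →
    (∃ (ℓ : ℕ → ℝ) (L : ℝ), AdmissibleWithLimit s ℓ L ∧ FullyMonotonic ℓ) ∧
    (∃ (ℓ : ℕ → ℝ) (L : ℝ), AdmissibleWithLimit s ℓ L ∧ Antitone ℓ) := by
  rintro s ⟨M, hM⟩
  obtain ⟨ε, c, hε, hA⟩ := exists_lac s M hM
  have h := hε.main hM hA
  refine ⟨⟨wt ε, c, h.1, h.2⟩, ⟨wt ε, c, h.1, ?_⟩⟩
  apply antitone_nat_of_succ_le
  intro n
  have := h.2 1 le_rfl n
  simp only [Function.iterate_one, diff] at this
  linarith

end Pool.Agent.Results.MP_968b24_an.FullyMonotoneWeights
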