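import Pool.Agent.Q161.WMeans.Core

/-!
# Two fully monotonic sequences of weights with different limits
-/

open Filter Topology Finset

namespace Pool.Agent.Results.MP_968b24_an.TwoLimits

open Pool.Agent.Q161.WMeans

/-- block endpoints -/
def NN (k : ℕ) : ℕ := (k + 1).factorial ^ 2

/-- scales -/
noncomputable def ee (k : ℕ) : ℝ := 1 / (((k + 1).factorial : ℝ) * ((k + 2).factorial : ℝ))

lemma NN_strictMono : StrictMono NN := by
  apply strictMono_nat_of_lt_succ
  intro k
  unfold NN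
  have : (k + 1).factorial < (k + 1 + 1).factorial :=
    (Nat.factorial_lt (Nat.succ_pos k)).mpr (Nat.lt_succ_self _)
  exact Nat.pow_lt_pow_left this two_ne_zero

lemma ee_pos (k : ℕ) : 0 < ee k := by unfold ee; positivity

lemma ee_zero : ee 0 = 1 / 2 := by
  unfold ee; norm_num [Nat.factorial]

lemma ee_step (k : ℕ) : ee (k + 1) = ee k / (((k : ℝ) + 2) * (k + 3)) := by
  unfold ee
  have h1 : ((k + 1 + 1).factorial : ℝ) = ((k : ℝ) + 2) * ((k + 1).factorial : ℝ) := by
    rw [Nat.factorial_succ (k + 1)]; push_cast; ring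
  have h2 : ((k + 1 + 2).factorial : ℝ) = ((k : ℝ) + 3) * ((k + 2).factorial : ℝ) := by
    rw [show k + 1 + 2 = (k + 2) + 1 from rfl, Nat.factorial_succ (k + 2)]; push_cast; ring
  have h3 : ((k + 2).factorial : ℝ) = ((k : ℝ) + 2) * ((k + 1).factorial : ℝ) := by
    rw [Nat.factorial_succ (k + 1)]; push_cast; ring
  rw [h1, h2, h3]
  field_simp

lemma ee_half (k : ℕ) : ee (k + 1) ≤ ee k / 2 := by
  rw [ee_step]
  have h := ee_pos k
  have hk : (0 : ℝ) ≤ k := Nat.cast_nonneg k
  gcongr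
  nlinarith

lemma ee_le (k : ℕ) : ee k ≤ 1 / 2 := by
  induction k with
  | zero => exact ee_zero.le
  | succ k ih =>
    have := ee_half k
    have := ee_pos k
    linarith

lemma NN_mul_ee (k : ℕ) : (NN k : ℝ) * ee k = 1 / ((k : ℝ) + 2) := by
  unfold NN ee
  have h1 : ((k + 2).factorial : ℝ) = ((k : ℝ) + 2) * ((k + 1).factorial : ℝ) := by
    rw [Nat.factorial_succ (k + 1)]; push_cast; ring
  rw [h1]
  push_cast
  field_simp

lemma NN_succ_mul_ee (k : ℕ) : (NN (k + 1) : ℝ) * ee k = (k : ℝ) + 2 := by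
  unfold NN ee
  have h1 : ((k + 2).factorial : ℝ) = ((k : ℝ) + 2) * ((k + 1).factorial : ℝ) := by
    rw [Nat.factorial_succ (k + 1)]; push_cast; ring
  rw [show k + 1 + 1 = k + 2 from rfl]
  push_cast
  rw [h1]
  field_simp

/-- The `0-1` sequence. -/
noncomputable def ss (n : ℕ) : ℝ := by
  classical
  exact if ∃ j, NN (2 * j) ≤ n ∧ n < NN (2 * j + 1) then 1 else 0

lemma ss_range (n : ℕ) : 0 ≤ ss n ∧ ss n ≤ 1 := by
  unfold ss; split_ifs <;> norm_num

lemma ss_even {k n : ℕ} (h1 : NN (2 * k) ≤ n) (h2 : n < NN (2 * k + 1)) : ss n = 1 := by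
  unfold ss; exact if_pos ⟨k, h1, h2⟩

lemma ss_odd {k n : ℕ} (h1 : NN (2 * k + 1) ≤ n) (h2 : n < NN (2 * k + 2)) : ss n = 0 := by
  unfold ss
  apply if_neg
  rintro ⟨j, hj1, hj2⟩
  have h3 : 2 * k + 1 < 2 * j + 1 := NN_strictMono.lt_iff_lt.mp (h1.trans_lt hj2)
  have h4 : 2 * j < 2 * k + 2 := NN_strictMono.lt_iff_lt.mp (hj1.trans_lt h2)
  omega

/-- Lower bound for Abel means of nonnegative sequences equal to one on a block. -/
lemma abel_lower {s : ℕ → ℝ} (hs : ∀ i, 0 ≤ s i ∧ s i ≤ 1) {a b : ℕ} (hab : a ≤ b)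
    (h1 : ∀ n, a ≤ n → n < b → s n = 1) {e : ℝ} (he : 0 < e) (he1 : e < 1) :
    (1 - e) ^ a - (1 - e) ^ b ≤ abelMean s e := by
  have hgeo : Summable fun i : ℕ => (1 - e) ^ i :=
    summable_geometric_of_lt_one (by linarith) (by linarith)
  have hsum : Summable fun i => (1 - e) ^ i * s i := by
    refine Summable.of_nonneg_of_le (fun i => ?_) (fun i => ?_) hgeo
    · exact mul_nonneg (pow_pos (by linarith) i).le (hs i).1
    · have := (pow_pos (show (0 : ℝ) < 1 - e by linarith) i)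
      have := (hs i).2
      nlinarith
  unfold abelMean
  have h2 : ∑ i ∈ Finset.Ico a b, (1 - e) ^ i * s i ≤ ∑' i, (1 - e) ^ i * s i :=
    hsum.sum_le_tsum _ (fun i _ => mul_nonneg (pow_pos (by linarith) i).le (hs i).1)
  have h3 : ∑ i ∈ Finset.Ico a b, (1 - e) ^ i * s i = ∑ i ∈ Finset.Ico a b, (1 - e) ^ i := by
    apply sum_congr rfl
    intro i hi
    rw [Finset.mem_Ico] at hi
    rw [h1 i hi.1 hi.2, mul_one]
  have h4 : e * ∑ i ∈ Finset.Ico a b, (1 - e) ^ i = (1 - e) ^ a - (1 - e) ^ b := by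
    rw [Finset.sum_Ico_eq_sub _ hab, mul_sub, geom_sum', geom_sum']; ring
  rw [← h4, ← h3]
  exact mul_le_mul_of_nonneg_left h2 he.le

lemma abel_compl {s : ℕ → ℝ} (hs : ∀ i, 0 ≤ s i ∧ s i ≤ 1) {e : ℝ} (he : 0 < e) (he1 : e < 1) :
    abelMean (fun i => 1 - s i) e = 1 - abelMean s e := by
  have hgeo : Summable fun i : ℕ => (1 - e) ^ i :=
    summable_geometric_of_lt_one (by linarith) (by linarith)
  have hsum : Summable fun i => (1 - e) ^ i * s i := by
    refine Summable.of_nonneg_of_le (fun i => ?_) (fun i => ?_) hgeo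
    · exact mul_nonneg (pow_pos (by linarith) i).le (hs i).1
    · have := (pow_pos (show (0 : ℝ) < 1 - e by linarith) i)
      have := (hs i).2
      nlinarith
  unfold abelMean
  have e1 : (fun i => (1 - e) ^ i * (1 - s i)) = fun i => (1 - e) ^ i - (1 - e) ^ i * s i := by
    funext i; ring
  rw [e1, hgeo.tsum_sub hsum, tsum_geometric_of_lt_one (by linarith) (by linarith)]
  rw [sub_sub_cancel, mul_sub, mul_inv_cancel₀ he.ne']

lemma block_mass (k : ℕ) :
    1 - 2 / ((k : ℝ) + 2) ≤ (1 - ee k) ^ NN k - (1 - ee k) ^ NN (k + 1) := by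
  have he := ee_pos k
  have he1 : ee k < 1 := lt_of_le_of_lt (ee_le k) (by norm_num)
  have h1 : 1 - 1 / ((k : ℝ) + 2) ≤ (1 - ee k) ^ NN k := by
    have hb := one_add_mul_le_pow (a := -ee k) (by linarith) (NN k)
    have : (1 + -ee k) ^ NN k = (1 - ee k) ^ NN k := by ring
    rw [this] at hb
    have h2 := NN_mul_ee k
    linarith
  have h2 : (1 - ee k) ^ NN (k + 1) ≤ 1 / ((k : ℝ) + 2) := by
    have h3 := one_add_mul_le_pow (a := ee k) (by linarith) (NN (k + 1))
    rw [NN_succ_mul_ee] at h3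
    have h4 : (1 - ee k) ^ NN (k + 1) * (1 + ee k) ^ NN (k + 1) ≤ 1 := by
      rw [← mul_pow]
      apply pow_le_one₀
      · have : 0 < 1 - ee k := by linarith
        positivity
      · nlinarith
    have h5 : 0 < (1 - ee k) ^ NN (k + 1) := pow_pos (by linarith) _
    rw [le_div_iff₀ (by positivity)]
    nlinarith
  have : 2 / ((k : ℝ) + 2) = 1 / ((k : ℝ) + 2) + 1 / ((k : ℝ) + 2) := by ring
  linarith

lemma abel_le_one {s : ℕ → ℝ} (hs : ∀ i, 0 ≤ s i ∧ s i ≤ 1) {e : ℝ} (he : 0 < e) (he1 : e < 1) :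
    abelMean s e ≤ 1 := by
  have h := abel_compl hs he he1
  have h2 : 0 ≤ abelMean (fun i => 1 - s i) e := by
    unfold abelMean
    apply mul_nonneg he.le
    apply tsum_nonneg
    intro i
    exact mul_nonneg (pow_pos (by linarith) i).le (by linarith [(hs i).2])
  linarith

lemma lac_sub (f : ℕ → ℕ) (hf : ∀ j, f (j + 1) = f j + 2) : Lac (fun j => ee (f j)) := by
  refine ⟨fun j => ee_pos _, fun j => lt_of_le_of_lt (ee_le _) (by norm_num), fun j => ?_⟩
  rw [hf]
  have h1 := ee_half (f j)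
  have h2 := ee_half (f j + 1)
  have h3 := ee_pos (f j)
  linarith

lemma tendsto_aux (f : ℕ → ℕ) (hf : Tendsto f atTop atTop) :
    Tendsto (fun j => 2 / ((f j : ℝ) + 2)) atTop (𝓝 0) := by
  have h1 : Tendsto (fun j => ((f j : ℝ) + 2)) atTop atTop :=
    tendsto_atTop_add_const_right _ _ (tendsto_natCast_atTop_atTop.comp hf)
  exact h1.const_div_atTop 2

/-- **Positive answer to Q2**: there are a bounded sequence (with terms in `{0, 1}`) and two
fully monotonic admissible sequences of weights for which the limits of the weighted means are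
different (they are `1` and `0`). -/
theorem result : ∃ (s ℓ' ℓ'' : ℕ → ℝ) (L' L'' : ℝ), (∀ i, s i = 0 ∨ s i = 1) ∧
    AdmissibleWithLimit s ℓ' L' ∧ FullyMonotonic ℓ' ∧
    AdmissibleWithLimit s ℓ'' L'' ∧ FullyMonotonic ℓ'' ∧ L' ≠ L'' := by
  have hb : ∀ i, |ss i| ≤ 1 := fun i => by
    rw [abs_of_nonneg (ss_range i).1]; exact (ss_range i).2
  have hee1 : ∀ k, ee k < 1 := fun k => lt_of_le_of_lt (ee_le k) (by norm_num)
  have t1 : Tendsto (fun j : ℕ => 2 * j) atTop atTop :=
    tendsto_id.const_mul_atTop' (by norm_num)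
  have t2 : Tendsto (fun j : ℕ => 2 * j + 1) atTop atTop :=
    (tendsto_add_atTop_nat 1).comp t1
  have h1 := (lac_sub (fun j => 2 * j) (fun j => by ring)).main hb (c := 1) (by
    have h0 := tendsto_aux _ t1
    have hlow : ∀ j : ℕ, 1 - 2 / (((2 * j : ℕ) : ℝ) + 2) ≤ abelMean ss (ee (2 * j)) := fun j =>
      (block_mass (2 * j)).trans (abel_lower ss_range
        (NN_strictMono.monotone (Nat.le_succ _)) (fun n => ss_even) (ee_pos _) (hee1 _))
    refine tendsto_of_tendsto_of_tendsto_of_le_of_le (by simpa using h0.const_sub 1)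
      tendsto_const_nhds hlow (fun j => abel_le_one ss_range (ee_pos _) (hee1 _)))
  have h2 := (lac_sub (fun j => 2 * j + 1) (fun j => by ring)).main hb (c := 0) (by
    have h0 := tendsto_aux _ t2
    have hcr : ∀ i, 0 ≤ 1 - ss i ∧ 1 - ss i ≤ 1 := fun i => by
      constructor <;> linarith [(ss_range i).1, (ss_range i).2]
    have hupp : ∀ j : ℕ, abelMean ss (ee (2 * j + 1)) ≤ 2 / (((2 * j + 1 : ℕ) : ℝ) + 2) := by
      intro j
      have h3 := (block_mass (2 * j + 1)).trans (abel_lower hcr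
        (NN_strictMono.monotone (Nat.le_succ _))
        (fun n ha hb => by rw [ss_odd ha hb, sub_zero]) (ee_pos _) (hee1 _))
      rw [abel_compl ss_range (ee_pos _) (hee1 _)] at h3
      linarith
    have hnn : ∀ j : ℕ, 0 ≤ abelMean ss (ee (2 * j + 1)) := by
      intro j
      unfold abelMean
      apply mul_nonneg (ee_pos _).le
      apply tsum_nonneg
      intro i
      exact mul_nonneg (pow_pos (by linarith [hee1 (2 * j + 1)]) i).le (ss_range i).1
    exact tendsto_of_tendsto_of_tendsto_of_le_of_le tendsto_const_nhds h0 hnn hupp)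
  refine ⟨ss, _, _, 1, 0, fun i => ?_, h1.1, h1.2, h2.1, h2.2, one_ne_zero⟩
  unfold ss
  split_ifs
  · right; rfl
  · left; rfl

end Pool.Agent.Results.MP_968b24_an.TwoLimits
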